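import Pool.Agent.Helper16.CZ.Stmts
import Pool.Agent.Helper35.BZ.PDC

/-! Module TEL: equidistribution for functions of the coordinates of level at most `ℓ`. -/

open Finset Filter MeasureTheory Topology
open scoped ComplexConjugate InnerProductSpace

namespace Pool.Agent.Helper16.CZ

open Pool.Agent.Helper16.AZ (T E Op mm)
open UnitAddTorus (mFourier)

theorem tel_one {r : ℕ} (lev : Fin r → ℕ) (S : T r → T r) (ℓ : ℕ) (hO : ∀ k ≤ ℓ, Orth lev S k)
    (P : ℕ) (X : Fin r → ℤ) (x : T r) (hP : 1 ≤ P) (hX : X ≠ 0)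
    (hl : ∀ j, X j ≠ 0 → lev j ≤ ℓ) :
    Tendsto (fun M : ℕ => (∑ y ∈ Icc 1 M, mFourier X (S^[P * y] x)) / (M : ℂ)) atTop (𝓝 0) := by
  obtain ⟨j0, hj0⟩ : ∃ j, X j ≠ 0 := by
    by_contra h
    refine hX (funext fun j => ?_)
    by_contra hj
    exact h ⟨j, hj⟩
  obtain ⟨j, hj, hmax⟩ := Finset.exists_max_image (Finset.univ.filter fun j => X j ≠ 0) lev
    ⟨j0, by simp [hj0]⟩
  have hjX : X j ≠ 0 := (Finset.mem_filter.1 hj).2
  have h := hO (lev j) (hl j hjX) P P X 0 x x hP hP (fun i hi => hmax i (by simp [hi]))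
    (fun i hi => absurd rfl hi) ⟨j, rfl, ?_⟩
  · refine h.congr fun M => ?_
    congr 1
    refine Finset.sum_congr rfl fun y _ => ?_
    rw [UnitAddTorus.mFourier_zero, ContinuousMap.one_apply, map_one, mul_one]
  · rw [Pi.zero_apply, mul_zero]
    have hP0 : (P : ℤ) ≠ 0 := by exact_mod_cast (show P ≠ 0 by omega)
    exact mul_ne_zero (pow_ne_zero _ hP0) hjX

theorem tel_q {r : ℕ} (lev : Fin r → ℕ) (ℓ : ℕ) (X : Fin r → ℤ) (x : T r) :
    mFourier X (fun j => if lev j ≤ ℓ then x j else 0) =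
      mFourier (fun j => if lev j ≤ ℓ then X j else 0) x := by
  simp only [UnitAddTorus.mFourier, ContinuousMap.coe_mk]
  refine Finset.prod_congr rfl fun j _ => ?_
  split_ifs
  · rfl
  · rw [fourier_zero, fourier_eval_zero]

theorem tel_int {r : ℕ} (X : Fin r → ℤ) :
    ∫ θ, mFourier X θ ∂(mm r) = if X = 0 then 1 else 0 := by
  have h := Pool.Agent.Helper16.BZ.pdc_orth (0 : Fin r → ℤ) X
  simp only [neg_zero, UnitAddTorus.mFourier_zero, ContinuousMap.one_apply, one_mul] at h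
  rw [h]
  simp only [eq_comm]

theorem tel_avg (a : ℕ → ℂ) (b : ℕ → ℂ) (e : ℝ) (he : 0 ≤ e) (h : ∀ y, ‖a y - b y‖ ≤ e) (M : ℕ) :
    ‖(∑ y ∈ Icc 1 M, a y) / (M : ℂ) - (∑ y ∈ Icc 1 M, b y) / (M : ℂ)‖ ≤ e := by
  rw [← sub_div, ← Finset.sum_sub_distrib, norm_div, Complex.norm_natCast]
  rcases Nat.eq_zero_or_pos M with hM | hM
  · rw [hM]
    simpa using he
  · have hM0 : (0 : ℝ) < M := by exact_mod_cast hM
    rw [div_le_iff₀ hM0]
    refine (norm_sum_le _ _).trans ?_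
    refine (Finset.sum_le_sum fun y _ => h y).trans ?_
    rw [Finset.sum_const, Nat.card_Icc, nsmul_eq_mul, Nat.add_sub_cancel, mul_comm]

theorem tel_trig {r : ℕ} (lev : Fin r → ℕ) (S : T r → T r) (ℓ : ℕ)
    (hO : ∀ k ≤ ℓ, Orth lev S k) (P : ℕ) (x : T r) (hP : 1 ≤ P) (s : Finset (Fin r → ℤ))
    (c : (Fin r → ℤ) → ℂ) :
    Tendsto (fun M : ℕ => (∑ y ∈ Icc 1 M, ∑ X ∈ s, c X *
      mFourier (fun j => if lev j ≤ ℓ then X j else 0) (S^[P * y] x)) / (M : ℂ)) atTop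
      (𝓝 (∑ X ∈ s, c X * ∫ θ, mFourier (fun j => if lev j ≤ ℓ then X j else 0) θ ∂(mm r))) := by
  have e1 : ∀ M : ℕ, (∑ y ∈ Icc 1 M, ∑ X ∈ s, c X *
      mFourier (fun j => if lev j ≤ ℓ then X j else 0) (S^[P * y] x)) / (M : ℂ) =
      ∑ X ∈ s, c X * ((∑ y ∈ Icc 1 M,
        mFourier (fun j => if lev j ≤ ℓ then X j else 0) (S^[P * y] x)) / (M : ℂ)) := by
    intro M
    rw [Finset.sum_comm, Finset.sum_div]
    refine Finset.sum_congr rfl fun X _ => ?_
    rw [← Finset.mul_sum, mul_div_assoc]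
  simp only [e1]
  refine tendsto_finsetSum _ fun X _ => ?_
  refine Tendsto.const_mul _ ?_
  rw [tel_int]
  by_cases hX : (fun j => if lev j ≤ ℓ then X j else 0 : Fin r → ℤ) = 0
  · rw [if_pos hX, hX]
    refine tendsto_const_nhds.congr' ?_
    filter_upwards [eventually_ge_atTop 1] with M hM
    have hM0 : (M : ℂ) ≠ 0 := by exact_mod_cast (show M ≠ 0 by omega)
    rw [UnitAddTorus.mFourier_zero]
    simp only [ContinuousMap.one_apply, Finset.sum_const, Nat.card_Icc, nsmul_eq_mul, mul_one,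
      Nat.add_sub_cancel]
    rw [div_self hM0]
  · rw [if_neg hX]
    refine tel_one lev S ℓ hO P _ x hP hX fun j hj => ?_
    by_contra hlt
    exact hj (if_neg hlt)

theorem st_TEL : ST_TEL := by
  intro r lev D ψ S _ ℓ hO
  refine ⟨fun P X x hP hX hl => tel_one lev S ℓ hO P X x hP hX hl, ?_⟩
  intro P F hP hF hdep x
  rw [Metric.tendsto_atTop]
  intro ε hε
  obtain ⟨c, hc⟩ := Pool.Agent.Helper16.BZ.pdc_app F hF (ε / 4) (by positivity)
  obtain ⟨G, hG⟩ : ∃ G : T r → ℂ, G = fun x => ∑ X ∈ c.support, c X *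
    mFourier (fun j => if lev j ≤ ℓ then X j else 0) x := ⟨_, rfl⟩
  have hGc : Continuous G := by
    rw [hG]
    exact continuous_finsetSum _ fun X _ => continuous_const.mul (mFourier _).continuous
  have hFG : ∀ x, ‖F x - G x‖ ≤ ε / 4 := by
    intro x
    have h1 := hc (fun j => if lev j ≤ ℓ then x j else 0)
    have h2 : F (fun j => if lev j ≤ ℓ then x j else 0) = F x :=
      hdep _ _ fun j hj => if_pos hj
    rw [h2] at h1
    simp only [tel_q] at h1
    rw [hG]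
    exact h1
  have hint : ∫ θ, G θ ∂(mm r) = ∑ X ∈ c.support, c X *
      ∫ θ, mFourier (fun j => if lev j ≤ ℓ then X j else 0) θ ∂(mm r) := by
    rw [hG, integral_finsetSum]
    · refine Finset.sum_congr rfl fun X _ => ?_
      rw [integral_const_mul]
    · intro X _
      exact Pool.Agent.Helper16.BZ.pdc_int _ (continuous_const.mul (mFourier _).continuous)
  have hdif : ‖∫ θ, G θ ∂(mm r) - ∫ θ, F θ ∂(mm r)‖ ≤ ε / 4 := by
    rw [← integral_sub (Pool.Agent.Helper16.BZ.pdc_int _ hGc)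
      (Pool.Agent.Helper16.BZ.pdc_int _ hF)]
    have h := norm_integral_le_of_norm_le_const (μ := mm r) (f := fun θ => G θ - F θ)
      (C := ε / 4) (Eventually.of_forall fun x => by
        rw [norm_sub_rev]
        exact hFG x)
    simpa using h
  have ht := tel_trig lev S ℓ hO P x hP c.support (fun X => c X)
  rw [← hint] at ht
  obtain ⟨N, hN⟩ := (Metric.tendsto_atTop.1 ht) (ε / 4) (by positivity)
  refine ⟨N, fun M hM => ?_⟩
  have h1 := hN M hM
  rw [dist_eq_norm] at h1 ⊢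
  have h2 := tel_avg (fun y => F (S^[P * y] x)) (fun y => G (S^[P * y] x)) (ε / 4)
    (by positivity) (fun y => hFG _) M
  have h3 : (∑ y ∈ Icc 1 M, G (S^[P * y] x)) / (M : ℂ) = (∑ y ∈ Icc 1 M, ∑ X ∈ c.support, c X *
      mFourier (fun j => if lev j ≤ ℓ then X j else 0) (S^[P * y] x)) / (M : ℂ) := by
    rw [hG]
  rw [h3] at h2
  have h4 : ∀ a b g i : ℂ, ‖a - i‖ ≤ ‖a - b‖ + ‖b - g‖ + ‖g - i‖ := by
    intro a b g i
    have : a - i = (a - b) + (b - g) + (g - i) := by ring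
    rw [this]
    exact norm_add₃_le
  have h5 := h4 _ _ (∫ θ, G θ ∂(mm r)) (∫ θ, F θ ∂(mm r)) |>.trans_lt
    (add_lt_add_of_lt_of_le (add_lt_add_of_le_of_lt h2 h1) hdif)
  refine h5.trans ?_
  linarith

end Pool.Agent.Helper16.CZ
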